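import Mathlib

set_option autoImplicit false

namespace Pool.Agent.H170.LatinFree

open Finset

/-- `L` is a latin square on the index type `α`. -/
def IsLatin {α : Type*} (L : α → α → α) : Prop :=
  (∀ i, Function.Injective (L i)) ∧ (∀ j, Function.Injective (fun i => L i j))

/-- the set of cells of `L` lying in no transversal. -/
def Free {α : Type*} (L : α → α → α) : Set (α × α) :=
  {p | ¬ ∃ σ : Equiv.Perm α, Function.Injective (fun i => L i (σ i)) ∧ σ p.1 = p.2}

/-- transport of structure along an equivalence -/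
theorem transport {α β : Type*} (e : α ≃ β) (L : α → α → α) (hL : IsLatin L) :
    IsLatin (fun i j : β => e (L (e.symm i) (e.symm j))) ∧
      Free (fun i j : β => e (L (e.symm i) (e.symm j))) = (Prod.map e e) '' (Free L) := by
  refine ⟨⟨?_, ?_⟩, ?_⟩
  · intro i a b h
    have := hL.1 _ (e.injective h)
    exact e.symm.injective this
  · intro j a b h
    have := hL.2 _ (e.injective h)
    exact e.symm.injective this
  · ext ⟨a, b⟩
    constructor
    · intro h
      refine ⟨(e.symm a, e.symm b), ?_, by simp⟩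
      rintro ⟨σ, hσ, hab⟩
      apply h
      refine ⟨(e.symm.trans σ).trans e, ?_, ?_⟩
      · intro x y hxy
        simp only [Equiv.trans_apply, Equiv.symm_apply_apply] at hxy
        have := hσ (e.injective hxy)
        exact e.symm.injective this
      · simp only [Equiv.trans_apply]
        simp only at hab
        rw [hab]; simp
    · rintro ⟨⟨a', b'⟩, h, hab⟩
      simp only [Prod.map_apply, Prod.mk.injEq] at hab
      obtain ⟨rfl, rfl⟩ := hab
      rintro ⟨σ, hσ, hab⟩
      apply h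
      refine ⟨(e.trans σ).trans e.symm, ?_, ?_⟩
      · intro x y hxy
        simp only [Equiv.trans_apply] at hxy
        have h2 := @hσ (e x) (e y) (by simpa using hxy)
        exact e.injective h2
      · simp only [Equiv.trans_apply]
        simp only at hab
        rw [hab]; simp

/-- reduced addition modulo `m` of a number below `2m`. -/
def red (m x : ℕ) : ℕ := if x < m then x else x - m

theorem red_lt {m x : ℕ} (h : x < 2 * m) : red m x < m := by
  unfold red; split_ifs <;> omega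

theorem red_cast {m x : ℕ} (h : x < 2 * m) : ((red m x : ℕ) : ZMod m) = (x : ZMod m) := by
  unfold red
  split_ifs with h1
  · rfl
  · push_cast [Nat.cast_sub (not_lt.1 h1)]
    simp

/-- the modified addition table of order `p`: rows `0,1,2` are rearranged. -/
def J (p i j : ℕ) : ℕ :=
  if i = 0 then (if j = 0 then 0 else if j + 1 = p then 1 else j + 1)
  else if i = 1 then (if j % 2 = 1 then j else if j + 1 = p then 0 else j + 2)
  else if i = 2 then (if j = 0 then 1 else if j % 2 = 0 then j else if j + 2 = p then 0 else j + 2)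
  else red p (i + j)

theorem J_lt {p i j : ℕ} (hp : 5 ≤ p) (hodd : p % 2 = 1) (hi : i < p) (hj : j < p) :
    J p i j < p := by
  unfold J red
  split_ifs <;> omega

theorem J_row {p i j k : ℕ} (hp : 5 ≤ p) (hodd : p % 2 = 1) (hi : i < p) (hj : j < p) (hk : k < p)
    (h : J p i j = J p i k) : j = k := by
  unfold J red at h
  split_ifs at h <;> omega

theorem J_col {p i k j : ℕ} (hp : 5 ≤ p) (hodd : p % 2 = 1) (hi : i < p) (hj : j < p) (hk : k < p)
    (h : J p i j = J p k j) : i = k := by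
  unfold J red at h
  split_ifs at h <;> omega

theorem J_zero {p i : ℕ} (hp : 5 ≤ p) (hi : i < p) : J p i 0 = 0 ↔ i = 0 := by
  unfold J
  constructor
  · intro h
    by_contra h0
    rw [if_neg h0] at h
    by_cases h1 : i = 1
    · rw [if_pos h1] at h
      simp at h
      omega
    · rw [if_neg h1] at h
      by_cases h2 : i = 2
      · rw [if_pos h2] at h
        simp at h
      · rw [if_neg h2] at h
        unfold red at h
        split_ifs at h <;> omega
  · intro h
    simp [h]

/-- if a nonzero symbol of row 1 or 2 lies in a nonzero column, it is the column or the column plus 2 -/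
theorem J_one {p j : ℕ} (h : J p 1 j ≠ 0) : J p 1 j = j + 2 ∨ J p 1 j = j := by
  have e : J p 1 j = if j % 2 = 1 then j else if j + 1 = p then 0 else j + 2 := by simp [J]
  rw [e] at h ⊢
  by_cases h1 : j % 2 = 1
  · right; rw [if_pos h1]
  · rw [if_neg h1] at h ⊢
    by_cases h2 : j + 1 = p
    · rw [if_pos h2] at h; exact absurd rfl h
    · left; rw [if_neg h2]

theorem J_two {p j : ℕ} (hj : j ≠ 0) (h : J p 2 j ≠ 0) : J p 2 j = j + 2 ∨ J p 2 j = j := by
  have e : J p 2 j = if j % 2 = 0 then j else if j + 2 = p then 0 else j + 2 := by simp [J, hj]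
  rw [e] at h ⊢
  by_cases h1 : j % 2 = 0
  · right; rw [if_pos h1]
  · rw [if_neg h1] at h ⊢
    by_cases h2 : j + 2 = p
    · rw [if_pos h2] at h; exact absurd rfl h
    · left; rw [if_neg h2]

/-- first coordinate of the table: special rows have `r = 0`. -/
def fst' (p i r j : ℕ) : ℕ := if r = 0 then J p i j else red p (i + j)

/-- the shift of the second coordinate -/
def bump (i j : ℕ) : ℕ := if i = 0 ∧ j = 0 then 1 else 0

theorem fst'_lt {p i r j : ℕ} (hp : 5 ≤ p) (hodd : p % 2 = 1) (hi : i < p) (hj : j < p) :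
    fst' p i r j < p := by
  unfold fst'
  split_ifs
  · exact J_lt hp hodd hi hj
  · exact red_lt (by omega)

theorem fst'_row {p i r j k : ℕ} (hp : 5 ≤ p) (hodd : p % 2 = 1) (hi : i < p) (hj : j < p)
    (hk : k < p) (h : fst' p i r j = fst' p i r k) : j = k := by
  unfold fst' at h
  split_ifs at h
  · exact J_row hp hodd hi hj hk h
  · unfold red at h
    split_ifs at h <;> omega

theorem fst'_col {p i k r j : ℕ} (hp : 5 ≤ p) (hodd : p % 2 = 1) (hi : i < p) (hj : j < p)
    (hk : k < p) (h : fst' p i r j = fst' p k r j) : i = k := by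
  unfold fst' at h
  split_ifs at h
  · exact J_col hp hodd hi hj hk h
  · unfold red at h
    split_ifs at h <;> omega

theorem fst'_zero {p i r : ℕ} (hp : 5 ≤ p) (hi : i < p) : fst' p i r 0 = 0 ↔ i = 0 := by
  unfold fst'
  split_ifs
  · exact J_zero hp hi
  · unfold red
    split_ifs <;> constructor <;> intro h <;> omega

theorem bump_le (i j : ℕ) : bump i j ≤ 1 := by unfold bump; split_ifs <;> omega

/-- The latin square of order `p * m`. -/
def Sq {p m : ℕ} (hp : 5 ≤ p) (hodd : p % 2 = 1) (x y : Fin p × Fin m) : Fin p × Fin m :=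
  (⟨fst' p x.1 x.2 y.1, fst'_lt hp hodd x.1.2 y.1.2⟩,
    ⟨red m (x.2 + y.2 + bump x.1 y.1), red_lt (by
      have h1 := x.2.2; have h2 := y.2.2; have h3 := bump_le x.1 y.1; omega)⟩)

theorem Sq_latin {p m : ℕ} (hp : 5 ≤ p) (hodd : p % 2 = 1) :
    IsLatin (Sq (m := m) hp hodd) := by
  constructor
  · rintro ⟨i, r⟩ ⟨j, c⟩ ⟨j', c'⟩ h
    simp only [Sq, Prod.mk.injEq, Fin.mk.injEq] at h
    obtain ⟨h1, h2⟩ := h
    have hj : (j : ℕ) = j' := fst'_row hp hodd i.2 j.2 j'.2 h1
    rw [← hj] at h2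
    have hc : (c : ℕ) = c' := by
      have hb := bump_le i j
      have := r.2; have := c.2; have := c'.2
      unfold red at h2
      split_ifs at h2 <;> omega
    simp only [Prod.mk.injEq]
    exact ⟨Fin.ext hj, Fin.ext hc⟩
  · rintro ⟨j, c⟩ ⟨i, r⟩ ⟨i', r'⟩ h
    simp only [Sq, Prod.mk.injEq, Fin.mk.injEq] at h
    obtain ⟨h1, h2⟩ := h
    have hb : bump i j = bump i' j := by
      unfold bump
      by_cases hj : (j : ℕ) = 0
      · rw [hj] at h1 ⊢
        have e1 := fst'_zero (p := p) (i := i) (r := r) hp i.2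
        have e2 := fst'_zero (p := p) (i := i') (r := r') hp i'.2
        by_cases hi : (i : ℕ) = 0
        · have := e2.1 (by rw [← h1]; exact e1.2 hi)
          simp [hi, this]
        · have : ¬ (i' : ℕ) = 0 := fun hh => hi (e1.1 (by rw [h1]; exact e2.2 hh))
          simp [hi, this]
      · simp [hj]
    rw [← hb] at h2
    have hr : (r : ℕ) = r' := by
      have hb := bump_le i j
      have := r.2; have := r'.2; have := c.2
      unfold red at h2
      split_ifs at h2 <;> omega
    rw [← hr] at h1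
    have hi : (i : ℕ) = i' := fst'_col hp hodd i.2 j.2 i'.2 h1
    simp only [Prod.mk.injEq]
    exact ⟨Fin.ext hi, Fin.ext hr⟩

theorem sum_fin_zmod {m : ℕ} (hm : m % 2 = 1) : ∑ c : Fin m, ((c : ℕ) : ZMod m) = 0 := by
  have h1 : ∑ c : Fin m, ((c : ℕ) : ZMod m) = ((∑ c ∈ Finset.range m, c : ℕ) : ZMod m) := by
    rw [Nat.cast_sum, ← Fin.sum_univ_eq_sum_range (fun c => ((c : ℕ) : ZMod m)) m]
  rw [h1]
  have h2 := Finset.sum_range_id_mul_two m
  obtain ⟨k, hk⟩ : ∃ k, m = 2 * k + 1 := ⟨m / 2, by omega⟩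
  have h3 : ∑ c ∈ Finset.range m, c = m * k := by
    have : m - 1 = 2 * k := by omega
    rw [this] at h2
    have : (∑ c ∈ Finset.range m, c) * 2 = (m * k) * 2 := by rw [h2]; ring
    omega
  rw [h3]
  simp

theorem sum_snd {p m : ℕ} (hm : m % 2 = 1) :
    ∑ x : Fin p × Fin m, ((x.2 : ℕ) : ZMod m) = 0 := by
  rw [Fintype.sum_prod_type]
  simp only [sum_fin_zmod hm, Finset.sum_const_zero]

theorem sum_fst {p m : ℕ} (hp : p % 2 = 1) :
    ∑ x : Fin p × Fin m, ((x.1 : ℕ) : ZMod p) = 0 := by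
  rw [Fintype.sum_prod_type_right]
  simp only [sum_fin_zmod hp, Finset.sum_const_zero]

theorem card_zero {p m : ℕ} (hp : 0 < p) :
    (Finset.univ.filter (fun x : Fin p × Fin m => (x.1 : ℕ) = 0)).card = m := by
  have : (Finset.univ.filter (fun x : Fin p × Fin m => (x.1 : ℕ) = 0))
      = ({⟨0, hp⟩} : Finset (Fin p)) ×ˢ (Finset.univ : Finset (Fin m)) := by
    ext x
    simp only [Finset.mem_filter, Finset.mem_univ, true_and, Finset.mem_product,
      Finset.mem_singleton, and_true, Fin.ext_iff]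
  rw [this, Finset.card_product]
  simp

/-- an injective self-map sending `{x.1 = 0}` into itself preserves the complement -/
theorem zero_iff {p m : ℕ} (f : Fin p × Fin m → Fin p × Fin m) (hf : Function.Injective f)
    (h : ∀ x, (x.1 : ℕ) = 0 → ((f x).1 : ℕ) = 0) (x : Fin p × Fin m) (hx : ((f x).1 : ℕ) = 0) :
    (x.1 : ℕ) = 0 := by
  classical
  set Z := Finset.univ.filter (fun x : Fin p × Fin m => (x.1 : ℕ) = 0) with hZ
  have hsub : Z.image f ⊆ Z := by
    intro y hy
    rw [Finset.mem_image] at hy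
    obtain ⟨z, hz, rfl⟩ := hy
    rw [hZ, Finset.mem_filter] at hz ⊢
    exact ⟨Finset.mem_univ _, h z hz.2⟩
  have heq : Z.image f = Z := Finset.eq_of_subset_of_card_le hsub
    (by rw [Finset.card_image_of_injective _ hf])
  have hfx : f x ∈ Z := by rw [hZ, Finset.mem_filter]; exact ⟨Finset.mem_univ _, hx⟩
  rw [← heq, Finset.mem_image] at hfx
  obtain ⟨z, hz, hzx⟩ := hfx
  have := hf hzx
  subst this
  rw [hZ, Finset.mem_filter] at hz
  exact hz.2

theorem zmod_ne {p : ℕ} (k : ℕ) (h0 : 0 < k) (hk : k < p) : ((k : ℕ) : ZMod p) ≠ 0 := by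
  intro h
  rw [ZMod.natCast_eq_zero_iff] at h
  have := Nat.le_of_dvd h0 h
  omega

/-- The key statement: no transversal of `Sq` meets the block `{x.1 = 0} × {y.1 = 0}`. -/
theorem Sq_free {p m : ℕ} (hp : 5 ≤ p) (hodd : p % 2 = 1) (hm : m % 2 = 1)
    (σ : Equiv.Perm (Fin p × Fin m))
    (hσ : Function.Injective (fun x => Sq hp hodd x (σ x))) (x : Fin p × Fin m)
    (hx : (x.1 : ℕ) = 0) : ((σ x).1 : ℕ) ≠ 0 := by
  classical
  intro hσx
  set τ : Fin p × Fin m → Fin p × Fin m := fun x => Sq hp hodd x (σ x) with hτ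
  have hτb : Function.Bijective τ := Finite.injective_iff_bijective.1 hσ
  -- fine labels
  have e1 : ∑ x, (((τ x).2 : ℕ) : ZMod m) = 0 := by
    rw [← sum_snd (p := p) (m := m) hm]
    exact (Equiv.ofBijective τ hτb).sum_comp (fun y : Fin p × Fin m => ((y.2 : ℕ) : ZMod m))
  have e2 : ∑ x, (((σ x).2 : ℕ) : ZMod m) = 0 := by
    rw [← sum_snd (p := p) (m := m) hm]
    exact Equiv.sum_comp σ (fun y : Fin p × Fin m => ((y.2 : ℕ) : ZMod m))
  have e3 : ∀ x, (((τ x).2 : ℕ) : ZMod m)
      = ((x.2 : ℕ) : ZMod m) + (((σ x).2 : ℕ) : ZMod m) + ((bump x.1 (σ x).1 : ℕ) : ZMod m) := by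
    intro x
    simp only [hτ, Sq]
    rw [red_cast]
    · push_cast; ring
    · have h1 := x.2.2; have h2 := (σ x).2.2; have h3 := bump_le x.1 (σ x).1; omega
  have e4 : ∑ x : Fin p × Fin m, ((bump x.1 (σ x).1 : ℕ) : ZMod m) = 0 := by
    have : ∑ x, (((τ x).2 : ℕ) : ZMod m) = ∑ x : Fin p × Fin m, ((x.2 : ℕ) : ZMod m)
        + ∑ x, (((σ x).2 : ℕ) : ZMod m) + ∑ x : Fin p × Fin m, ((bump x.1 (σ x).1 : ℕ) : ZMod m) := by
      rw [← Finset.sum_add_distrib, ← Finset.sum_add_distrib]
      exact Finset.sum_congr rfl (fun x _ => e3 x)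
    rw [e1, e2, sum_snd hm] at this
    simpa using this.symm
  set A := Finset.univ.filter (fun x : Fin p × Fin m => (x.1 : ℕ) = 0 ∧ ((σ x).1 : ℕ) = 0) with hA
  have hAcard : (A.card : ZMod m) = 0 := by
    rw [← e4, hA, Finset.card_filter, Nat.cast_sum]
    rfl
  rw [ZMod.natCast_eq_zero_iff] at hAcard
  have hxA : x ∈ A := by rw [hA, Finset.mem_filter]; exact ⟨Finset.mem_univ _, hx, hσx⟩
  have hApos : 0 < A.card := Finset.card_pos.2 ⟨x, hxA⟩
  have hAm : m ≤ A.card := Nat.le_of_dvd hApos hAcard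
  set Z := Finset.univ.filter (fun x : Fin p × Fin m => (x.1 : ℕ) = 0) with hZ
  have hAZ : A ⊆ Z := by
    intro y hy
    rw [hA, Finset.mem_filter] at hy
    rw [hZ, Finset.mem_filter]
    exact ⟨Finset.mem_univ _, hy.2.1⟩
  have hAeq : A = Z := Finset.eq_of_subset_of_card_le hAZ (by
    rw [hZ, card_zero (by omega)]; exact hAm)
  have hcol : ∀ x : Fin p × Fin m, (x.1 : ℕ) = 0 → ((σ x).1 : ℕ) = 0 := by
    intro y hy
    have : y ∈ Z := by rw [hZ, Finset.mem_filter]; exact ⟨Finset.mem_univ _, hy⟩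
    rw [← hAeq, hA, Finset.mem_filter] at this
    exact this.2.2
  have hsym : ∀ x : Fin p × Fin m, (x.1 : ℕ) = 0 → ((τ x).1 : ℕ) = 0 := by
    intro y hy
    simp only [hτ, Sq]
    rw [hcol y hy]
    exact (fst'_zero hp y.1.2).2 hy
  have hcol' := zero_iff σ σ.injective hcol
  have hsym' := zero_iff τ hσ hsym
  -- coarse labels
  have d1 : ∑ x, (((τ x).1 : ℕ) : ZMod p) = 0 := by
    rw [← sum_fst (p := p) (m := m) hodd]
    exact (Equiv.ofBijective τ hτb).sum_comp (fun y : Fin p × Fin m => ((y.1 : ℕ) : ZMod p))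
  have d2 : ∑ x, (((σ x).1 : ℕ) : ZMod p) = 0 := by
    rw [← sum_fst (p := p) (m := m) hodd]
    exact Equiv.sum_comp σ (fun y : Fin p × Fin m => ((y.1 : ℕ) : ZMod p))
  set dev : Fin p × Fin m → ZMod p := fun x =>
    (((τ x).1 : ℕ) : ZMod p) - ((x.1 : ℕ) : ZMod p) - (((σ x).1 : ℕ) : ZMod p) with hdev
  have d3 : ∑ x, dev x = 0 := by
    simp only [hdev, Finset.sum_sub_distrib]
    rw [d1, d2, sum_fst hodd]; simp
  have hm0 : 0 < m := by omega
  set x0 : Fin p × Fin m := (⟨0, by omega⟩, ⟨0, hm0⟩) with hx0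
  set x1 : Fin p × Fin m := (⟨1, by omega⟩, ⟨0, hm0⟩) with hx1
  set x2 : Fin p × Fin m := (⟨2, by omega⟩, ⟨0, hm0⟩) with hx2
  have d4 : ∀ x, x ∉ ({x0, x1, x2} : Finset (Fin p × Fin m)) → dev x = 0 := by
    intro x hx
    have key : ((τ x).1 : ℕ) = red p (x.1 + (σ x).1) := by
      simp only [hτ, Sq, fst']
      split_ifs with hr
      · have h012 : (x.1 : ℕ) ≠ 0 ∧ (x.1 : ℕ) ≠ 1 ∧ (x.1 : ℕ) ≠ 2 := by
          refine ⟨fun h => hx ?_, fun h => hx ?_, fun h => hx ?_⟩
          · simp only [Finset.mem_insert]; left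
            exact Prod.ext (Fin.ext h) (Fin.ext hr)
          · simp only [Finset.mem_insert]; right; left
            exact Prod.ext (Fin.ext h) (Fin.ext hr)
          · simp only [Finset.mem_insert, Finset.mem_singleton]; right; right
            exact Prod.ext (Fin.ext h) (Fin.ext hr)
        unfold J
        rw [if_neg h012.1, if_neg h012.2.1, if_neg h012.2.2]
      · rfl
    simp only [hdev]
    rw [key, red_cast (by have := x.1.2; have := (σ x).1.2; omega)]
    push_cast; ring
  have d5 : dev x0 + (dev x1 + dev x2) = 0 := by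
    rw [← d3, ← Finset.sum_subset (Finset.subset_univ ({x0, x1, x2} : Finset (Fin p × Fin m)))
      (fun x _ hx => d4 x hx)]
    rw [Finset.sum_insert, Finset.sum_insert, Finset.sum_singleton]
    · simp [hx1, hx2]
    · simp [hx0, hx1, hx2]
  have t0 : dev x0 = 0 := by
    have h1 := hcol x0 rfl
    have h2 := hsym x0 rfl
    simp only [hdev]
    rw [h1, h2]
    simp [hx0]
  have t1 : dev x1 = 1 ∨ dev x1 = -1 := by
    have h1 : ((σ x1).1 : ℕ) ≠ 0 := fun h => by
      have := hcol' x1 h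
      simp [hx1] at this
    have h2 : ((τ x1).1 : ℕ) ≠ 0 := fun h => by
      have := hsym' x1 h
      simp [hx1] at this
    have h3 : ((τ x1).1 : ℕ) = J p 1 (σ x1).1 := rfl
    have h4 : ((τ x1).1 : ℕ) = (σ x1).1 + 2 ∨ ((τ x1).1 : ℕ) = (σ x1).1 := by
      rw [h3] at h2 ⊢
      exact J_one h2
    simp only [hdev]
    rcases h4 with h4 | h4
    · left; rw [h4]; simp [hx1]; ring
    · right; rw [h4]; simp [hx1]
  have t2 : dev x2 = 0 ∨ dev x2 = -2 := by
    have h1 : ((σ x2).1 : ℕ) ≠ 0 := fun h => by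
      have := hcol' x2 h
      simp [hx2] at this
    have h2 : ((τ x2).1 : ℕ) ≠ 0 := fun h => by
      have := hsym' x2 h
      simp [hx2] at this
    have h3 : ((τ x2).1 : ℕ) = J p 2 (σ x2).1 := rfl
    have h4 : ((τ x2).1 : ℕ) = (σ x2).1 + 2 ∨ ((τ x2).1 : ℕ) = (σ x2).1 := by
      rw [h3] at h2 ⊢
      exact J_two h1 h2
    simp only [hdev]
    rcases h4 with h4 | h4
    · left; rw [h4]; simp [hx2]
    · right; rw [h4]; simp [hx2]
  have n1 : (1 : ZMod p) ≠ 0 := by simpa using zmod_ne (p := p) 1 (by omega) (by omega)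
  have n3 : (3 : ZMod p) ≠ 0 := by simpa using zmod_ne (p := p) 3 (by omega) (by omega)
  rw [t0] at d5
  rcases t1 with t1 | t1 <;> rcases t2 with t2 | t2 <;> rw [t1, t2] at d5
  · exact n1 (by linear_combination d5)
  · exact n1 (by linear_combination -d5)
  · exact n1 (by linear_combination -d5)
  · exact n3 (by linear_combination -d5)

end Pool.Agent.H170.LatinFree
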